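import Mathlib

/-!
# A graph with `q(G) = 2` and `MB(G) > mr_+(G)`

We exhibit a graph on ten vertices with `q(G) = 2` whose minimum positive semidefinite rank is at
most `3`, while `G` achieves none of the multiplicity bipartitions `[9,1]`, `[8,2]`, `[7,3]`;
it achieves `[5,5]`.
-/

namespace Pool.Agent.Results.MP_558aee_co.StrictInequality

open Matrix

section defs
variable {V : Type} [Fintype V] [DecidableEq V]

/-- `S(G)`: the real symmetric matrices `A` with `A i j ≠ 0` exactly when `ij` is an edge, for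
`i ≠ j`. -/
def SG (G : SimpleGraph V) : Set (Matrix V V ℝ) :=
  {A | A.IsSymm ∧ ∀ i j, i ≠ j → (A i j ≠ 0 ↔ G.Adj i j)}

/-- The number of distinct eigenvalues of `A`. -/
noncomputable def qMat (A : Matrix V V ℝ) : ℕ := (spectrum ℝ A).ncard

/-- `q(G)`. -/
noncomputable def q (G : SimpleGraph V) : ℕ := sInf {k | ∃ A ∈ SG G, qMat A = k}

/-- The multiplicity of `μ` as an eigenvalue of `A`. -/
noncomputable def mult (A : Matrix V V ℝ) (μ : ℝ) : ℕ :=
  Module.finrank ℝ (Module.End.eigenspace (Matrix.toLin' A) μ)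

/-- `G` achieves the multiplicity bipartition `[n - k, k]`: some matrix of `S(G)` has two distinct
eigenvalues `a ≠ b` whose multiplicities `n - k` and `k` add up to `n`. -/
def Achieves (G : SimpleGraph V) (k : ℕ) : Prop :=
  1 ≤ k ∧ 2 * k ≤ Fintype.card V ∧
    ∃ A ∈ SG G, ∃ a b : ℝ, a ≠ b ∧ mult A a = Fintype.card V - k ∧ mult A b = k

/-- The minimal multiplicity bipartition `MB(G)`. -/
noncomputable def MB (G : SimpleGraph V) : ℕ := sInf {k | Achieves G k}

/-- `mr_+(G)`. -/
noncomputable def mrPlus (G : SimpleGraph V) : ℕ :=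
  sInf {r | ∃ A ∈ SG G, A.PosSemidef ∧ A.rank = r}

end defs

/-! ### Idempotent matrices -/

section idem
variable {V : Type} [Fintype V] [DecidableEq V]

theorem mult_one_of_idem (Q : Matrix V V ℝ) (hQ : Q * Q = Q) : (mult Q 1 : ℝ) = Q.trace := by
  have hproj : LinearMap.IsProj (Module.End.eigenspace (Matrix.toLin' Q) 1) (Matrix.toLin' Q) := by
    constructor
    · intro x
      rw [Module.End.mem_eigenspace_iff, Matrix.toLin'_apply, Matrix.toLin'_apply,
        Matrix.mulVec_mulVec, hQ, one_smul]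
    · intro x hx
      rw [Module.End.mem_eigenspace_iff, one_smul] at hx
      exact hx
  have h := hproj.trace
  rw [Matrix.trace_toLin'_eq] at h
  exact h.symm

theorem mult_zero_of_idem (Q : Matrix V V ℝ) (hQ : Q * Q = Q) :
    (mult Q 0 : ℝ) = Fintype.card V - Q.trace := by
  have h1 : (1 - Q) * (1 - Q) = 1 - Q := by
    rw [Matrix.mul_sub, Matrix.sub_mul, Matrix.sub_mul, hQ]
    simp
  have h2 := mult_one_of_idem (1 - Q) h1
  have hE : Module.End.eigenspace (Matrix.toLin' Q) 0 =
      Module.End.eigenspace (Matrix.toLin' (1 - Q)) 1 := by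
    ext x
    rw [Module.End.mem_eigenspace_iff, Module.End.mem_eigenspace_iff, Matrix.toLin'_apply,
      Matrix.toLin'_apply, Matrix.sub_mulVec, Matrix.one_mulVec]
    simp
  have h3 : mult Q 0 = mult (1 - Q) 1 := by
    unfold mult
    rw [hE]
  rw [h3, h2, Matrix.trace_sub, Matrix.trace_one]

/-- From a matrix with two eigenvalues to an idempotent. -/
theorem exists_idem (A : Matrix V V ℝ) (hA : A.IsSymm) (a b : ℝ) (hab : a ≠ b) (k : ℕ)
    (hk : k ≤ Fintype.card V) (ha : mult A a = Fintype.card V - k) (hb : mult A b = k) :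
    ∃ P : Matrix V V ℝ, P.IsSymm ∧ P * P = P ∧ P.trace = k ∧
      ∀ i j, i ≠ j → (P i j ≠ 0 ↔ A i j ≠ 0) := by
  have hba : b - a ≠ 0 := sub_ne_zero.2 hab.symm
  -- the two eigenspaces span
  have hdisj : Disjoint (Module.End.eigenspace (Matrix.toLin' A) a)
      (Module.End.eigenspace (Matrix.toLin' A) b) := by
    rw [Submodule.disjoint_def]
    intro x hx hx'
    rw [Module.End.mem_eigenspace_iff] at hx hx'
    rw [hx, ← sub_eq_zero, ← sub_smul] at hx'
    rcases smul_eq_zero.1 hx' with h | h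
    · exact absurd (sub_eq_zero.1 h) hab
    · exact h
  have htop : Module.End.eigenspace (Matrix.toLin' A) a ⊔
      Module.End.eigenspace (Matrix.toLin' A) b = ⊤ := by
    apply Submodule.eq_top_of_finrank_eq
    have := Submodule.finrank_sup_add_finrank_inf_eq
      (Module.End.eigenspace (Matrix.toLin' A) a) (Module.End.eigenspace (Matrix.toLin' A) b)
    rw [hdisj.eq_bot, finrank_bot, add_zero] at this
    rw [this]
    unfold mult at ha hb
    rw [ha, hb, Module.finrank_fintype_fun_eq_card]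
    omega
  have hzero : (A - a • (1 : Matrix V V ℝ)) * (A - b • (1 : Matrix V V ℝ)) = 0 := by
    apply Matrix.toLin'.injective
    apply LinearMap.ext
    intro x
    rw [Matrix.toLin'_apply, map_zero, LinearMap.zero_apply]
    have hx : x ∈ Module.End.eigenspace (Matrix.toLin' A) a ⊔
      Module.End.eigenspace (Matrix.toLin' A) b := by rw [htop]; trivial
    obtain ⟨y, hy, z, hz, rfl⟩ := Submodule.mem_sup.1 hx
    rw [Module.End.mem_eigenspace_iff, Matrix.toLin'_apply] at hy hz
    have e1 : (A - b • (1 : Matrix V V ℝ)) *ᵥ (y + z) = (a - b) • y := by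
      rw [Matrix.sub_mulVec, Matrix.mulVec_add, hy, hz, Matrix.smul_mulVec, Matrix.one_mulVec]
      ext i
      simp only [Pi.add_apply, Pi.sub_apply, Pi.smul_apply, smul_eq_mul]
      ring
    rw [← Matrix.mulVec_mulVec, e1, Matrix.mulVec_smul, Matrix.sub_mulVec, hy,
      Matrix.smul_mulVec, Matrix.one_mulVec, sub_self, smul_zero]
  let P : Matrix V V ℝ := (b - a)⁻¹ • (A - a • (1 : Matrix V V ℝ))
  have hPP : P * P = P := by
    have e : A - b • (1 : Matrix V V ℝ) = (A - a • (1 : Matrix V V ℝ)) -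
        (b - a) • (1 : Matrix V V ℝ) := by
      rw [sub_smul]
      abel
    rw [e, Matrix.mul_sub, Matrix.mul_smul, Matrix.mul_one, sub_eq_zero] at hzero
    simp only [P]
    rw [Matrix.smul_mul, Matrix.mul_smul, hzero, smul_smul, smul_smul]
    congr 1
    field_simp
  refine ⟨P, ?_, hPP, ?_, ?_⟩
  · simp only [P]
    unfold Matrix.IsSymm
    rw [Matrix.transpose_smul, Matrix.transpose_sub, hA, Matrix.transpose_smul,
      Matrix.transpose_one]
  · rw [← mult_one_of_idem P hPP, ← hb]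
    have hE : Module.End.eigenspace (Matrix.toLin' P) 1 =
        Module.End.eigenspace (Matrix.toLin' A) b := by
      ext x
      rw [Module.End.mem_eigenspace_iff, Module.End.mem_eigenspace_iff, Matrix.toLin'_apply,
        Matrix.toLin'_apply]
      simp only [P]
      rw [Matrix.smul_mulVec, Matrix.sub_mulVec, Matrix.smul_mulVec, Matrix.one_mulVec, one_smul]
      constructor
      · intro h
        have h' : A *ᵥ x - a • x = (b - a) • x := by
          conv_rhs => rw [← h]
          rw [smul_smul, mul_inv_cancel₀ hba, one_smul]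
        rw [sub_eq_iff_eq_add, ← add_smul] at h'
        rw [h']
        congr 1
        ring
      · intro h
        rw [h, ← sub_smul, smul_smul, inv_mul_cancel₀ hba, one_smul]
    unfold mult
    rw [hE]
  · intro i j hij
    simp only [P, Matrix.smul_apply, Matrix.sub_apply, Matrix.one_apply_ne hij, smul_eq_mul,
      mul_zero, sub_zero]
    constructor
    · intro h h0
      exact h (by rw [h0, mul_zero])
    · intro h
      exact mul_ne_zero (inv_ne_zero hba) h

end idem

/-! ### The graph -/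

/-- Neighbour lists of `G`. -/
def nb : Fin 10 → Finset (Fin 10) :=
  ![{4, 5, 8, 9}, {4, 5, 6, 7}, {3, 4, 5, 6, 7, 8, 9}, {2, 4, 5, 6, 7, 8, 9}, {0, 1, 2, 3, 5},
    {0, 1, 2, 3, 4}, {1, 2, 3, 7, 8, 9}, {1, 2, 3, 6, 8, 9}, {0, 2, 3, 6, 7, 9}, {0, 2, 3, 6, 7, 8}]

/-- The graph `G` on ten vertices. -/
def G : SimpleGraph (Fin 10) where
  Adj a b := b ∈ nb a
  symm := ⟨by decide⟩
  loopless := ⟨by decide⟩

instance : DecidableRel G.Adj := fun a b => inferInstanceAs (Decidable (b ∈ nb a))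

/-! ### No idempotent of trace at most three -/

theorem no_idem (P : Matrix (Fin 10) (Fin 10) ℝ) (hs : P.IsSymm) (hP : P * P = P)
    (htr : P.trace ≤ 3) (hpat : ∀ i j, i ≠ j → (P i j ≠ 0 ↔ G.Adj i j)) : False := by
  have hsymm : ∀ i j, P i j = P j i := fun i j => by
    have := congrFun (congrFun hs j) i
    simpa using this
  have hdot : ∀ a b, (P a) ⬝ᵥ (P b) = P a b := by
    intro a b
    have := congrFun (congrFun hP a) b
    rw [Matrix.mul_apply] at this
    rw [← this, dotProduct]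
    exact Finset.sum_congr rfl fun l _ => by rw [hsymm l b]
  have hz : ∀ i j, i ≠ j → ¬ G.Adj i j → P i j = 0 := by
    intro i j hij hadj
    by_contra h
    exact hadj ((hpat i j hij).1 h)
  have hnz : ∀ i j, G.Adj i j → P i j ≠ 0 := fun i j h => (hpat i j h.ne).2 h
  have hpos : ∀ i j, G.Adj i j → 0 < P i i := by
    intro i j h
    rw [← hdot i i, dotProduct]
    have h1 : P i j * P i j ≤ ∑ l, P i l * P i l :=
      Finset.single_le_sum (f := fun l => P i l * P i l)
        (fun l _ => mul_self_nonneg _) (Finset.mem_univ j)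
    have h2 : 0 < P i j * P i j := mul_self_pos.2 (hnz i j h)
    linarith
  have p0 : 0 < P 0 0 := hpos 0 4 (by decide)
  have p1 : 0 < P 1 1 := hpos 1 4 (by decide)
  have p2 : 0 < P 2 2 := hpos 2 4 (by decide)
  have z01 : P 0 1 = 0 := hz 0 1 (by decide) (by decide)
  have z02 : P 0 2 = 0 := hz 0 2 (by decide) (by decide)
  have z12 : P 1 2 = 0 := hz 1 2 (by decide) (by decide)
  have z10 : P 1 0 = 0 := hz 1 0 (by decide) (by decide)
  have z20 : P 2 0 = 0 := hz 2 0 (by decide) (by decide)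
  have z21 : P 2 1 = 0 := hz 2 1 (by decide) (by decide)
  let r : Fin 10 → Fin 10 → ℝ := fun j =>
    P j - ((P j 0 / P 0 0) • P 0 + (P j 1 / P 1 1) • P 1 + (P j 2 / P 2 2) • P 2)
  have hr : ∀ j, r j ⬝ᵥ r j =
      P j j - ((P 0 j * P 0 j) / P 0 0 + (P 1 j * P 1 j) / P 1 1 + (P 2 j * P 2 j) / P 2 2) := by
    intro j
    simp only [r, sub_dotProduct, dotProduct_sub, add_dotProduct, dotProduct_add,
      smul_dotProduct, dotProduct_smul, hdot, smul_eq_mul, z01, z02, z12, z10, z20, z21,
      hsymm j 0, hsymm j 1, hsymm j 2]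
    field_simp
    ring
  have hnn : ∀ j, 0 ≤ r j ⬝ᵥ r j := fun j => by
    rw [dotProduct]
    exact Finset.sum_nonneg fun l _ => mul_self_nonneg _
  have hsum : ∑ j, r j ⬝ᵥ r j = P.trace - 3 := by
    have e0 : ∑ j, P 0 j * P 0 j = P 0 0 := hdot 0 0
    have e1 : ∑ j, P 1 j * P 1 j = P 1 1 := hdot 1 1
    have e2 : ∑ j, P 2 j * P 2 j = P 2 2 := hdot 2 2
    have : ∑ j, r j ⬝ᵥ r j = ∑ j, P j j - (∑ j, P 0 j * P 0 j) / P 0 0 -
        (∑ j, P 1 j * P 1 j) / P 1 1 - (∑ j, P 2 j * P 2 j) / P 2 2 := by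
      rw [Finset.sum_div, Finset.sum_div, Finset.sum_div, ← Finset.sum_sub_distrib,
        ← Finset.sum_sub_distrib, ← Finset.sum_sub_distrib]
      refine Finset.sum_congr rfl fun j _ => ?_
      rw [hr]
      ring
    rw [this, e0, e1, e2, div_self p0.ne', div_self p1.ne', div_self p2.ne', Matrix.trace]
    simp only [Matrix.diag_apply]
    ring
  have hall : ∀ j, r j = 0 := by
    have h0 : ∑ j, r j ⬝ᵥ r j = 0 :=
      le_antisymm (by rw [hsum]; linarith) (Finset.sum_nonneg fun j _ => hnn j)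
    intro j
    have h1 := (Finset.sum_eq_zero_iff_of_nonneg fun j _ => hnn j).1 h0 j (Finset.mem_univ j)
    exact dotProduct_self_eq_zero.1 h1
  have hrel : ∀ j l, P j l = P j 0 / P 0 0 * P 0 l + P j 1 / P 1 1 * P 1 l +
      P j 2 / P 2 2 * P 2 l := by
    intro j l
    have := congrFun (hall j) l
    simp only [r, Pi.sub_apply, Pi.add_apply, Pi.smul_apply, smul_eq_mul, Pi.zero_apply] at this
    linarith
  -- the two relations for a vertex `v ∈ {4, 5}`
  have n16 : P 1 6 ≠ 0 := hnz 1 6 (by decide)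
  have n26 : P 2 6 ≠ 0 := hnz 2 6 (by decide)
  have n08 : P 0 8 ≠ 0 := hnz 0 8 (by decide)
  have n28 : P 2 8 ≠ 0 := hnz 2 8 (by decide)
  have key : ∀ v : Fin 10, v = 4 ∨ v = 5 →
      P 0 v * P 1 v = (P 2 v) ^ 2 * ((P 0 0 / P 2 2 * (P 2 8 / P 0 8)) *
        (P 1 1 / P 2 2 * (P 2 6 / P 1 6))) := by
    intro v hv
    have a1 : P v 6 = 0 := by
      rcases hv with rfl | rfl
      · exact hz 4 6 (by decide) (by decide)
      · exact hz 5 6 (by decide) (by decide)
    have a2 : P v 8 = 0 := by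
      rcases hv with rfl | rfl
      · exact hz 4 8 (by decide) (by decide)
      · exact hz 5 8 (by decide) (by decide)
    have z06 : P 0 6 = 0 := hz 0 6 (by decide) (by decide)
    have z18 : P 1 8 = 0 := hz 1 8 (by decide) (by decide)
    have r1 := hrel v 6
    have r2 := hrel v 8
    rw [a1, z06, mul_zero, zero_add] at r1
    rw [a2, z18, mul_zero, add_zero] at r2
    have e1 : P 1 v = - (P 2 v * (P 1 1 / P 2 2 * (P 2 6 / P 1 6))) := by
      rw [hsymm v 1, hsymm v 2] at r1
      field_simp at r1 ⊢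
      linarith
    have e2 : P 0 v = - (P 2 v * (P 0 0 / P 2 2 * (P 2 8 / P 0 8))) := by
      rw [hsymm v 0, hsymm v 2] at r2
      field_simp at r2 ⊢
      linarith
    rw [e1, e2]
    ring
  have k4 := key 4 (Or.inl rfl)
  have k5 := key 5 (Or.inr rfl)
  have horth : P 0 4 * P 1 4 + P 0 5 * P 1 5 = 0 := by
    have h01 := hdot 0 1
    rw [z01, dotProduct] at h01
    have hdec : ∀ l : Fin 10, l ∉ ({4, 5} : Finset (Fin 10)) →
        (0 ≠ l ∧ ¬ G.Adj 0 l) ∨ (1 ≠ l ∧ ¬ G.Adj 1 l) := by decide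
    have hsub : ∑ l, P 0 l * P 1 l = ∑ l ∈ ({4, 5} : Finset (Fin 10)), P 0 l * P 1 l := by
      symm
      apply Finset.sum_subset (Finset.subset_univ _)
      intro l _ hl
      rcases hdec l hl with ⟨h1, h2⟩ | ⟨h1, h2⟩
      · rw [hz 0 l h1 h2, zero_mul]
      · rw [hz 1 l h1 h2, mul_zero]
    rw [hsub, Finset.sum_pair (by decide)] at h01
    exact h01
  rw [k4, k5, ← add_mul] at horth
  have n24 : P 2 4 ≠ 0 := hnz 2 4 (by decide)
  have hne : (P 0 0 / P 2 2 * (P 2 8 / P 0 8)) * (P 1 1 / P 2 2 * (P 2 6 / P 1 6)) ≠ 0 := by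
    refine mul_ne_zero (mul_ne_zero (div_ne_zero p0.ne' p2.ne') (div_ne_zero n28 n08))
      (mul_ne_zero (div_ne_zero p1.ne' p2.ne') (div_ne_zero n26 n16))
  rcases mul_eq_zero.1 horth with h | h
  · have : 0 < (P 2 4) ^ 2 := by positivity
    nlinarith [sq_nonneg (P 2 5)]
  · exact hne h

/-! ### The matrices -/

/-- Rows of a tight frame in dimension five. -/
def W5 : Matrix (Fin 10) (Fin 5) ℤ :=
  !![70, 0, 0, 0, 0;
     0, 50, 0, 0, 0;
     0, 0, 30, 56, 0;
     0, 0, -40, 42, 0;
     20, 40, -20, -20, 0;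
     20, -40, 20, -20, 0;
     0, 20, 40, 0, 35;
     0, 20, 40, 0, -35;
     20, 0, 0, 20, 45;
     20, 0, 0, 20, -45]

/-- Rows of an orthogonal representation in dimension three. -/
def W3 : Matrix (Fin 10) (Fin 3) ℤ :=
  !![1, 0, 0;
     0, 1, 0;
     0, 0, 1;
     0, 0, 1;
     1, 1, -1;
     1, 1, -1;
     0, 1, 1;
     0, 1, 1;
     1, 0, 1;
     1, 0, 1]

/-- The Gram matrix of `W5`. -/
def G5 : Matrix (Fin 10) (Fin 10) ℤ := W5 * W5ᵀ

/-- The Gram matrix of `W3`. -/
def G3 : Matrix (Fin 10) (Fin 10) ℤ := W3 * W3ᵀ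

theorem G5_sq : G5 * G5 = 6500 • G5 := by decide +kernel

theorem G5_symm : ∀ i j, G5 i j = G5 j i := by decide +kernel

theorem G5_pat : ∀ i j, i ≠ j → (G5 i j ≠ 0 ↔ G.Adj i j) := by decide +kernel

theorem G5_trace : G5.trace = 5 * 6500 := by decide +kernel

theorem G3_symm : ∀ i j, G3 i j = G3 j i := by decide +kernel

theorem G3_pat : ∀ i j, i ≠ j → (G3 i j ≠ 0 ↔ G.Adj i j) := by decide +kernel

/-- The orthogonal projection of rank five. -/
noncomputable def P5 : Matrix (Fin 10) (Fin 10) ℝ :=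
  (1 / 6500 : ℝ) • G5.map (Int.castRingHom ℝ)

theorem P5_mem : P5 ∈ SG G := by
  constructor
  · ext i j
    simp only [P5, Matrix.transpose_apply, Matrix.smul_apply, Matrix.map_apply]
    rw [G5_symm]
  · intro i j hij
    simp only [P5, Matrix.smul_apply, Matrix.map_apply, smul_eq_mul]
    rw [← G5_pat i j hij]
    constructor
    · intro h h0
      exact h (by rw [h0]; simp)
    · intro h
      refine mul_ne_zero (by norm_num) ?_
      simpa using h

theorem P5_idem : P5 * P5 = P5 := by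
  unfold P5
  rw [Matrix.smul_mul, Matrix.mul_smul, ← Matrix.map_mul, G5_sq]
  ext i j
  have e : (6500 • G5) i j = 6500 * G5 i j := by simp
  simp only [Matrix.smul_apply, Matrix.map_apply, smul_eq_mul, eq_intCast]
  rw [← Matrix.smul_apply, e]
  push_cast
  ring

theorem P5_trace : P5.trace = 5 := by
  have h := congrArg (Int.cast : ℤ → ℝ) G5_trace
  unfold P5
  rw [Matrix.trace_smul, smul_eq_mul]
  have e : (G5.map (Int.castRingHom ℝ)).trace = ((G5.trace : ℤ) : ℝ) := by
    simp [Matrix.trace, Matrix.diag]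
  rw [e, h]
  norm_num

theorem achieves_five : Achieves G 5 := by
  refine ⟨by norm_num, by simp, P5, P5_mem, 0, 1, by norm_num, ?_, ?_⟩
  · have h := mult_zero_of_idem P5 P5_idem
    rw [P5_trace, Fintype.card_fin] at h
    have h' : (mult P5 0 : ℝ) = ((5 : ℕ) : ℝ) := by rw [h]; norm_num
    rw [Fintype.card_fin]
    exact_mod_cast h'
  · have h := mult_one_of_idem P5 P5_idem
    rw [P5_trace] at h
    exact_mod_cast h

theorem not_achieves {k : ℕ} (hk : k ≤ 3) : ¬ Achieves G k := by
  rintro ⟨_, h2, A, hA, a, b, hab, ha, hb⟩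
  obtain ⟨P, hPs, hPP, hPt, hPat⟩ := exists_idem A hA.1 a b hab k (by omega) ha hb
  refine no_idem P hPs hPP ?_ ?_
  · rw [hPt]
    exact_mod_cast hk
  · intro i j hij
    rw [hPat i j hij]
    exact hA.2 i j hij

theorem four_le_MB : 4 ≤ MB G := by
  have hne : {k | Achieves G k}.Nonempty := ⟨5, achieves_five⟩
  have hmem := Nat.sInf_mem hne
  by_contra hlt
  exact not_achieves (by unfold MB at hlt; omega) hmem

theorem mrPlus_le : mrPlus G ≤ 3 := by
  let B : Matrix (Fin 10) (Fin 3) ℝ := W3.map (Int.castRingHom ℝ)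
  have hB : B * Bᵀ = G3.map (Int.castRingHom ℝ) := by
    simp only [B, G3]
    rw [← Matrix.transpose_map, ← Matrix.map_mul]
  have hmem : B * Bᵀ ∈ SG G := by
    rw [hB]
    constructor
    · ext i j
      simp only [Matrix.transpose_apply, Matrix.map_apply]
      rw [G3_symm]
    · intro i j hij
      simp only [Matrix.map_apply]
      rw [← G3_pat i j hij]
      simp
  have hpsd : (B * Bᵀ).PosSemidef := by
    have := Matrix.posSemidef_self_mul_conjTranspose B
    rwa [Matrix.conjTranspose_eq_transpose_of_trivial] at this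
  have hrank : (B * Bᵀ).rank ≤ 3 := by
    calc (B * Bᵀ).rank ≤ B.rank := Matrix.rank_mul_le_left _ _
      _ ≤ Fintype.card (Fin 3) := Matrix.rank_le_card_width _
      _ = 3 := by simp
  have h1 : mrPlus G ≤ (B * Bᵀ).rank := Nat.sInf_le ⟨B * Bᵀ, hmem, hpsd, rfl⟩
  exact h1.trans hrank

theorem two_le_qMat {A : Matrix (Fin 10) (Fin 10) ℝ} (hA : A ∈ SG G) : 2 ≤ qMat A := by
  have hH : A.IsHermitian := by
    unfold Matrix.IsHermitian
    rw [Matrix.conjTranspose_eq_transpose_of_trivial]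
    exact hA.1
  have hfin : (spectrum ℝ A).Finite := Matrix.finite_real_spectrum
  by_contra hlt
  have hle : (spectrum ℝ A).ncard ≤ 1 := by unfold qMat at hlt; omega
  rw [Set.ncard_le_one hfin] at hle
  have hc : hH.eigenvalues 0 ∈ spectrum ℝ A := hH.eigenvalues_mem_spectrum_real 0
  have hzero : A - hH.eigenvalues 0 • (1 : Matrix (Fin 10) (Fin 10) ℝ) = 0 := by
    by_contra hne
    have hH' : (A - hH.eigenvalues 0 • (1 : Matrix (Fin 10) (Fin 10) ℝ)).IsHermitian := by
      unfold Matrix.IsHermitian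
      rw [Matrix.conjTranspose_eq_transpose_of_trivial, Matrix.transpose_sub, hA.1,
        Matrix.transpose_smul, Matrix.transpose_one]
    obtain ⟨v, t, ht, hv, hAv⟩ := hH'.exists_eigenvector_of_ne_zero hne
    have hAv' : A *ᵥ v = (hH.eigenvalues 0 + t) • v := by
      rw [Matrix.sub_mulVec, Matrix.smul_mulVec, Matrix.one_mulVec] at hAv
      rw [add_smul]
      exact (sub_eq_iff_eq_add'.1 hAv)
    have hmem : hH.eigenvalues 0 + t ∈ spectrum ℝ A := by
      rw [← Matrix.spectrum_toLin', ← Module.End.hasEigenvalue_iff_mem_spectrum]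
      apply Module.End.hasEigenvalue_of_hasEigenvector (x := v)
      refine ⟨?_, hv⟩
      rw [Module.End.mem_eigenspace_iff, Matrix.toLin'_apply]
      exact hAv'
    have := hle _ hmem _ hc
    exact ht (by linarith)
  have h04 : A 0 4 = 0 := by
    have := congrFun (congrFun hzero 0) 4
    simpa [Matrix.one_apply_ne (show (0 : Fin 10) ≠ 4 by decide)] using this
  exact ((hA.2 0 4 (by decide)).2 (by decide)) h04

theorem q_eq_two : q G = 2 := by
  have h5 : qMat P5 ≤ 2 := by
    unfold qMat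
    have hsub := IsIdempotentElem.spectrum_subset ℝ (p := P5) P5_idem
    calc (spectrum ℝ P5).ncard ≤ ({0, 1} : Set ℝ).ncard := Set.ncard_le_ncard hsub
      _ ≤ 2 := by rw [Set.ncard_pair (by norm_num)]
  have h5' : qMat P5 = 2 := le_antisymm h5 (two_le_qMat P5_mem)
  have hne : {k | ∃ A ∈ SG G, qMat A = k}.Nonempty := ⟨2, P5, P5_mem, h5'⟩
  apply le_antisymm
  · exact Nat.sInf_le ⟨P5, P5_mem, h5'⟩
  · obtain ⟨A, hA, hq⟩ := Nat.sInf_mem hne
    unfold q
    rw [← hq]
    exact two_le_qMat hA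

/-- There is a graph `G` with `q(G) = 2` and `MB(G) > mr_+(G)`. -/
theorem result : ∃ G : SimpleGraph (Fin 10),
    q G = 2 ∧ (∃ k, Achieves G k) ∧ mrPlus G < MB G :=
  ⟨G, q_eq_two, ⟨5, achieves_five⟩, by have := mrPlus_le; have := four_le_MB; omega⟩

end Pool.Agent.Results.MP_558aee_co.StrictInequality
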